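import Pool.Agent.R279.CS.Defs

/-!
# Independence of the Clifford spectrum of the representation (three generators)

For three elements `e_0, e_1, e_2` of a nontrivial complex algebra satisfying the Clifford
relations, the localizer is invertible if and only if the localizer formed with the Pauli
matrices is.
-/

namespace Pool.Agent.R279.CS

open Matrix

section Psi

variable {R : Type*} [Ring R] [Algebra ℂ R]

/-- The central symmetry `ω = -i e_0 e_1 e_2`. -/
noncomputable def omega (e : Fin 3 → R) : R := (-Complex.I) • (e 0 * e 1 * e 2)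

variable {e : Fin 3 → R}

theorem rel10 (he : IsCliffordFamily e) : e 1 * e 0 = -(e 0 * e 1) := he.2 1 0 (by decide)
theorem rel20 (he : IsCliffordFamily e) : e 2 * e 0 = -(e 0 * e 2) := he.2 2 0 (by decide)
theorem rel21 (he : IsCliffordFamily e) : e 2 * e 1 = -(e 1 * e 2) := he.2 2 1 (by decide)

theorem rel10' (he : IsCliffordFamily e) (x : R) : e 1 * (e 0 * x) = -(e 0 * (e 1 * x)) := by
  rw [← mul_assoc, rel10 he, neg_mul, mul_assoc]
theorem rel20' (he : IsCliffordFamily e) (x : R) : e 2 * (e 0 * x) = -(e 0 * (e 2 * x)) := by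
  rw [← mul_assoc, rel20 he, neg_mul, mul_assoc]
theorem rel21' (he : IsCliffordFamily e) (x : R) : e 2 * (e 1 * x) = -(e 1 * (e 2 * x)) := by
  rw [← mul_assoc, rel21 he, neg_mul, mul_assoc]
theorem relsq' (he : IsCliffordFamily e) (j : Fin 3) (x : R) : e j * (e j * x) = x := by
  rw [← mul_assoc, he.1 j, one_mul]

theorem omega_sq (he : IsCliffordFamily e) : omega e * omega e = 1 := by
  simp only [omega, smul_mul_smul_comm, mul_assoc, rel20' he, rel21', rel10', rel21 he, rel20 he,
    rel10 he, relsq' he, he.1, mul_neg, neg_mul, mul_one, neg_neg, Complex.I_mul_I, smul_neg]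
  simp only [rel10' he, rel20' he, rel21' he, relsq' he, he.1, mul_neg, neg_neg, mul_one]
  simp

theorem omega_comm (he : IsCliffordFamily e) (j : Fin 3) : omega e * e j = e j * omega e := by
  fin_cases j
  · simp only [omega, smul_mul_assoc, mul_smul_comm, mul_assoc, rel20' he, rel21' he, rel10' he,
      rel21 he, rel20 he, rel10 he, relsq' he, he.1, mul_neg, neg_mul, mul_one, neg_neg]
    simp [rel10' he, rel20' he, rel21' he, relsq' he, he.1, rel10 he, rel20 he, rel21 he, mul_assoc]
  · simp [omega, rel10' he, rel20' he, rel21' he, relsq' he, he.1, rel10 he, rel20 he, rel21 he,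
      mul_assoc]
  · simp [omega, rel10' he, rel20' he, rel21' he, relsq' he, he.1, rel10 he, rel20 he, rel21 he,
      mul_assoc]

theorem omega_e01 (he : IsCliffordFamily e) : e 0 * e 1 = Complex.I • (omega e * e 2) := by
  simp [omega, smul_mul_assoc, mul_assoc, he.1, smul_smul]

theorem omega_e12 (he : IsCliffordFamily e) : e 1 * e 2 = Complex.I • (omega e * e 0) := by
  simp [omega, smul_mul_assoc, mul_assoc, he.1, smul_smul, rel20 he, rel10' he, relsq' he]

theorem omega_e20 (he : IsCliffordFamily e) : e 2 * e 0 = Complex.I • (omega e * e 1) := by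
  simp [omega, smul_mul_assoc, mul_assoc, he.1, smul_smul, rel20 he, rel21 he, relsq' he]

/-- `f_j = ω e_j`. -/
noncomputable def ff (e : Fin 3 → R) (j : Fin 3) : R := omega e * e j

theorem ff_mul (he : IsCliffordFamily e) (j k : Fin 3) : ff e j * ff e k = e j * e k := by
  unfold ff
  calc omega e * e j * (omega e * e k) = omega e * (e j * omega e) * e k := by
        simp only [mul_assoc]
    _ = omega e * (omega e * e j) * e k := by rw [omega_comm he j]
    _ = (omega e * omega e) * (e j * e k) := by simp only [mul_assoc]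
    _ = e j * e k := by rw [omega_sq he, one_mul]

theorem ff00 (he : IsCliffordFamily e) : ff e 0 * ff e 0 = 1 := by rw [ff_mul he, he.1]
theorem ff11 (he : IsCliffordFamily e) : ff e 1 * ff e 1 = 1 := by rw [ff_mul he, he.1]
theorem ff22 (he : IsCliffordFamily e) : ff e 2 * ff e 2 = 1 := by rw [ff_mul he, he.1]
theorem ff01 (he : IsCliffordFamily e) : ff e 0 * ff e 1 = Complex.I • ff e 2 := by
  rw [ff_mul he, omega_e01 he]; rfl
theorem ff12 (he : IsCliffordFamily e) : ff e 1 * ff e 2 = Complex.I • ff e 0 := by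
  rw [ff_mul he, omega_e12 he]; rfl
theorem ff20 (he : IsCliffordFamily e) : ff e 2 * ff e 0 = Complex.I • ff e 1 := by
  rw [ff_mul he, omega_e20 he]; rfl
theorem ff10 (he : IsCliffordFamily e) : ff e 1 * ff e 0 = -(Complex.I • ff e 2) := by
  rw [ff_mul he, rel10 he, omega_e01 he]; rfl
theorem ff21 (he : IsCliffordFamily e) : ff e 2 * ff e 1 = -(Complex.I • ff e 0) := by
  rw [ff_mul he, rel21 he, omega_e12 he]; rfl
theorem ff02 (he : IsCliffordFamily e) : ff e 0 * ff e 2 = -(Complex.I • ff e 1) := by
  rw [ff_mul he, he.2 0 2 (by decide), omega_e20 he]; rfl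

/-- Matrix units. -/
noncomputable def eu (e : Fin 3 → R) (a b : Fin 2) : R :=
  if a = 0 then (if b = 0 then (1 / 2 : ℂ) • (1 + ff e 2)
    else (1 / 2 : ℂ) • (ff e 0 + Complex.I • ff e 1))
  else (if b = 0 then (1 / 2 : ℂ) • (ff e 0 - Complex.I • ff e 1)
    else (1 / 2 : ℂ) • (1 - ff e 2))

theorem eu_mul (he : IsCliffordFamily e) (a b c d : Fin 2) :
    eu e a b * eu e c d = if b = c then eu e a d else 0 := by
  have hI : Complex.I ^ 2 = -1 := Complex.I_sq
  fin_cases a <;> fin_cases b <;> fin_cases c <;> fin_cases d <;>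
    simp only [eu, Fin.zero_eta, Fin.mk_one, Fin.isValue, if_true, one_ne_zero, zero_ne_one, if_false,
      smul_mul_assoc, mul_smul_comm, mul_add, add_mul, mul_sub, sub_mul, one_mul, mul_one,
      ff00 he, ff11 he, ff22 he, ff01 he, ff12 he, ff20 he, ff10 he, ff21 he, ff02 he, smul_smul,
      smul_neg, Complex.I_mul_I, smul_add, smul_sub, mul_neg, neg_mul] <;>
    match_scalars <;> ring_nf <;> simp [hI] <;> norm_num

theorem eu_sum (e : Fin 3 → R) : eu e 0 0 + eu e 1 1 = 1 := by
  simp only [eu, Fin.isValue, if_true, one_ne_zero, if_false]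
  module

/-- The algebra map from the `2 × 2` matrices. -/
noncomputable def psiFun (e : Fin 3 → R) (m : Matrix (Fin 2) (Fin 2) ℂ) : R :=
  ∑ a, ∑ b, m a b • eu e a b

noncomputable def psi (he : IsCliffordFamily e) : Matrix (Fin 2) (Fin 2) ℂ →+* R where
  toFun := psiFun e
  map_one' := by
    simp [psiFun, Fin.sum_univ_two, eu_sum]
  map_zero' := by simp [psiFun]
  map_add' m m' := by
    simp only [psiFun, Fin.sum_univ_two, Matrix.add_apply]
    module
  map_mul' m m' := by
    simp only [psiFun, Fin.sum_univ_two, Matrix.mul_apply, mul_add, add_mul, smul_mul_assoc,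
      mul_smul_comm, eu_mul he]
    simp only [Fin.isValue, if_true, one_ne_zero, zero_ne_one, if_false, smul_zero]
    module

theorem psi_apply (he : IsCliffordFamily e) (m : Matrix (Fin 2) (Fin 2) ℂ) :
    psi he m = m 0 0 • eu e 0 0 + m 0 1 • eu e 0 1 + (m 1 0 • eu e 1 0 + m 1 1 • eu e 1 1) := by
  change psiFun e m = _
  simp [psiFun, Fin.sum_univ_two]

theorem psi_smul (he : IsCliffordFamily e) (z : ℂ) (m : Matrix (Fin 2) (Fin 2) ℂ) :
    psi he (z • m) = z • psi he m := by
  simp only [psi_apply, Matrix.smul_apply, smul_eq_mul]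
  module

theorem eu00_ne_zero [Nontrivial R] (he : IsCliffordFamily e) : eu e 0 0 ≠ 0 := by
  intro h
  have h11 : eu e 1 1 = 0 := by
    have h1 : eu e 1 0 * eu e 0 1 = eu e 1 1 := by rw [eu_mul he]; simp
    have h2 : eu e 1 0 * eu e 0 0 = eu e 1 0 := by rw [eu_mul he]; simp
    rw [h, mul_zero] at h2
    rw [← h1, ← h2, zero_mul]
  have h3 := eu_sum e
  rw [h, h11, add_zero] at h3
  exact zero_ne_one h3

theorem psi_injective [Nontrivial R] (he : IsCliffordFamily e) : Function.Injective (psi he) := by
  rw [injective_iff_map_eq_zero]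
  intro m hm
  ext a b
  have h1 : eu e 0 a * psi he m * eu e b 0 = m a b • eu e 0 0 := by
    rw [psi_apply]
    simp only [mul_add, add_mul, mul_smul_comm, smul_mul_assoc, eu_mul he]
    fin_cases a <;> fin_cases b <;> simp [eu_mul he]
  rw [hm, mul_zero, zero_mul] at h1
  rcases smul_eq_zero.1 h1.symm with h | h
  · simpa using h
  · exact absurd h (eu00_ne_zero he)

/-- The Pauli matrices. -/
def pauli : Fin 3 → Matrix (Fin 2) (Fin 2) ℂ :=
  ![!![0, 1; 1, 0], !![0, -Complex.I; Complex.I, 0], !![1, 0; 0, -1]]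

theorem pauli_isCliffordFamily : IsCliffordFamily pauli := by
  constructor
  · intro j
    fin_cases j <;> ext a b <;> fin_cases a <;> fin_cases b <;>
      simp [pauli, Matrix.mul_apply, Fin.sum_univ_two]
  · intro j k hjk
    fin_cases j <;> fin_cases k <;> first
      | (exact absurd rfl hjk)
      | (ext a b; fin_cases a <;> fin_cases b <;>
          simp [pauli, Matrix.mul_apply, Fin.sum_univ_two])

theorem psi_pauli (he : IsCliffordFamily e) (j : Fin 3) : psi he (pauli j) = omega e * e j := by
  have hI : Complex.I ^ 2 = -1 := Complex.I_sq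
  rw [psi_apply]
  fin_cases j
  · simp only [pauli, eu]
    simp [ff]
    match_scalars <;> ring_nf
  · simp only [pauli, eu]
    simp [ff]
    match_scalars <;> ring_nf <;> simp [hI] <;> norm_num
  · simp only [pauli, eu]
    simp [ff]
    match_scalars <;> ring_nf

variable {ι : Type*} [Fintype ι] [DecidableEq ι]

theorem localizer_eq (he : IsCliffordFamily e) (A : Fin 3 → Matrix ι ι ℂ) (lam : Fin 3 → ℝ) :
    localizer e A lam
      = Matrix.diagonal (fun _ => omega e) * (psi he).mapMatrix (localizer pauli A lam) := by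
  ext a b
  rw [Matrix.diagonal_mul]
  simp only [localizer, Matrix.sum_apply, Matrix.map_apply, RingHom.mapMatrix_apply, map_sum,
    psi_smul, psi_pauli, Finset.mul_sum, mul_smul_comm]
  refine Finset.sum_congr rfl fun j _ => ?_
  rw [← mul_assoc, omega_sq he, one_mul]

theorem isUnit_diag_omega (he : IsCliffordFamily e) :
    IsUnit (Matrix.diagonal (fun _ : ι => omega e)) := by
  have h : Matrix.diagonal (fun _ : ι => omega e) * Matrix.diagonal (fun _ : ι => omega e) = 1 := by
    rw [Matrix.diagonal_mul_diagonal]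
    simp only [omega_sq he]
    exact Matrix.diagonal_one
  exact ⟨⟨_, _, h, h⟩, rfl⟩

/-- A matrix over the `2 × 2` matrices that is not invertible is a left zero divisor. -/
theorem exists_mul_eq_zero_of_not_isUnit (L : Matrix ι ι (Matrix (Fin 2) (Fin 2) ℂ))
    (h : ¬ IsUnit L) : ∃ V : Matrix ι ι (Matrix (Fin 2) (Fin 2) ℂ), V ≠ 0 ∧ L * V = 0 := by
  set c := Matrix.compRingEquiv ι (Fin 2) ℂ with hc
  have h1 : ¬ IsUnit (c L) := by
    intro hu
    apply h
    have := hu.map c.symm
    simpa using this
  rw [Matrix.isUnit_iff_isUnit_det, isUnit_iff_ne_zero, not_not] at h1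
  obtain ⟨v, hv, hv0⟩ := Matrix.exists_mulVec_eq_zero_iff.2 h1
  refine ⟨c.symm (Matrix.vecMulVec v v), ?_, ?_⟩
  · intro h0
    have h2 : Matrix.vecMulVec v v = 0 := by
      have := congrArg c h0
      simpa using this
    obtain ⟨i, hi⟩ := Function.ne_iff.1 hv
    have h3 := congrFun (congrFun h2 i) i
    simp only [Matrix.vecMulVec_apply, Matrix.zero_apply, mul_self_eq_zero] at h3
    exact hi h3
  · apply c.injective
    rw [map_mul, RingEquiv.apply_symm_apply, Matrix.mul_vecMulVec, hv0, map_zero]
    ext a b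
    simp [Matrix.vecMulVec_apply]

/-- The invertibility of the localizer does not depend on the choice of the generators. -/
theorem isUnit_localizer_iff [Nontrivial R] (he : IsCliffordFamily e) (A : Fin 3 → Matrix ι ι ℂ)
    (lam : Fin 3 → ℝ) : IsUnit (localizer e A lam) ↔ IsUnit (localizer pauli A lam) := by
  rw [localizer_eq he]
  obtain ⟨u, hu⟩ := isUnit_diag_omega (ι := ι) he
  rw [← hu, Units.isUnit_units_mul]
  constructor
  · intro h
    by_contra hL
    obtain ⟨V, hV, hLV⟩ := exists_mul_eq_zero_of_not_isUnit _ hL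
    have h1 : (psi he).mapMatrix (localizer pauli A lam) * (psi he).mapMatrix V = 0 := by
      rw [← map_mul, hLV, map_zero]
    have h2 : (psi he).mapMatrix V = 0 := by
      rwa [h.mul_right_eq_zero] at h1
    apply hV
    refine funext fun a => funext fun b => ?_
    apply psi_injective he
    have := congrFun (congrFun h2 a) b
    simpa using this
  · intro h
    exact h.map _

end Psi

end Pool.Agent.R279.CS
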