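import Mathlib

/-!
# Clifford spectra of tuples of Hermitian matrices: definitions

* `IsCliffordFamily e`: the elements `e 0, …, e (d-1)` of a ring satisfy `e_j² = 1` and
  `e_j e_k = - e_k e_j` for `j ≠ k`.
* `localizer e A lam`: the matrix `∑ j, (A_j - λ_j) ⊗ e_j` with entries in the complex algebra `R`.
* `spectrumIn e A`: the set of `λ` for which the localizer is not invertible.
* `Cl d`: the complex Clifford algebra of `x_1² + ⋯ + x_d²` on `ℂ^d`, with generators `gen d j`.
* `cliffordSpectrum A`: the Clifford spectrum.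
* `IsOneManifold X`: `X` is nonempty, Hausdorff and every point has an open neighbourhood
  homeomorphic to the real line.
-/

namespace Pool.Agent.R279.CS

/-- The Clifford relations. -/
def IsCliffordFamily {R : Type*} [Ring R] {d : ℕ} (e : Fin d → R) : Prop :=
  (∀ j, e j * e j = 1) ∧ ∀ j k, j ≠ k → e j * e k = -(e k * e j)

/-- The localizer `∑ j, (A_j - λ_j I) ⊗ e_j`, a matrix over `R`. -/
noncomputable def localizer {R : Type*} [Ring R] [Algebra ℂ R] {d : ℕ} {ι : Type*} [DecidableEq ι]
    (e : Fin d → R) (A : Fin d → Matrix ι ι ℂ) (lam : Fin d → ℝ) : Matrix ι ι R :=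
  ∑ j, (A j - (lam j : ℂ) • (1 : Matrix ι ι ℂ)).map (fun z => z • e j)

/-- The set of `λ ∈ ℝ^d` for which the localizer is not invertible. -/
def spectrumIn {R : Type*} [Ring R] [Algebra ℂ R] {d : ℕ} {ι : Type*} [Fintype ι] [DecidableEq ι]
    (e : Fin d → R) (A : Fin d → Matrix ι ι ℂ) : Set (Fin d → ℝ) :=
  {lam | ¬ IsUnit (localizer e A lam)}

/-- The quadratic form `x_1² + ⋯ + x_d²` on `ℂ^d`. -/
noncomputable def stdForm (d : ℕ) : QuadraticForm ℂ (Fin d → ℂ) :=
  QuadraticMap.weightedSumSquares ℂ (fun _ : Fin d => (1 : ℂ))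

/-- The complex Clifford algebra on `d` generators. -/
abbrev Cl (d : ℕ) : Type := CliffordAlgebra (stdForm d)

/-- The generator `e_j` of the complex Clifford algebra. -/
noncomputable def gen (d : ℕ) (j : Fin d) : Cl d := CliffordAlgebra.ι (stdForm d) (Pi.single j 1)

/-- The Clifford spectrum of a tuple of matrices. -/
noncomputable def cliffordSpectrum {d n : ℕ} (A : Fin d → Matrix (Fin n) (Fin n) ℂ) :
    Set (Fin d → ℝ) :=
  spectrumIn (gen d) A

/-- One-manifold: a nonempty Hausdorff space in which every point has an open neighbourhood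
homeomorphic to the real line. -/
def IsOneManifold (X : Type*) [TopologicalSpace X] : Prop :=
  Nonempty X ∧ T2Space X ∧ ∀ x : X, ∃ U : Set X, IsOpen U ∧ x ∈ U ∧ Nonempty (U ≃ₜ ℝ)

theorem stdForm_apply (d : ℕ) (v : Fin d → ℂ) : stdForm d v = ∑ j, v j * v j := by
  simp [stdForm, QuadraticMap.weightedSumSquares_apply]

theorem gen_isCliffordFamily (d : ℕ) : IsCliffordFamily (gen d) := by
  constructor
  · intro j
    rw [gen, CliffordAlgebra.ι_sq_scalar, stdForm_apply]
    rw [Finset.sum_eq_single j]
    · simp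
    · intro b _ hb
      simp [hb]
    · intro h
      exact absurd (Finset.mem_univ j) h
  · intro j k hjk
    rw [gen, gen]
    apply CliffordAlgebra.ι_mul_ι_comm_of_isOrtho
    rw [QuadraticMap.isOrtho_def, stdForm_apply, stdForm_apply, stdForm_apply, ← Finset.sum_add_distrib]
    refine Finset.sum_congr rfl fun i _ => ?_
    rcases eq_or_ne i j with rfl | hij
    · simp [hjk]
    · simp [hij]

instance (d : ℕ) : Nontrivial (Cl d) := inferInstance

end Pool.Agent.R279.CS
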