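import Pool.Agent.R279.CS.Cliff

/-!
# A `4 × 4` triple whose Clifford spectrum is a circle and two points
-/

namespace Pool.Agent.R279.CS

open Matrix Complex

/-- The basic triple of Hermitian `4 × 4` matrices. -/
noncomputable def baseA : Fin 3 → Matrix (Fin 4) (Fin 4) ℂ :=
  ![!![0, 4, 0, 5; 4, 0, 5, 0; 0, 5, 0, 4; 5, 0, 4, 0],
    !![0, -4 * I, 0, -5 * I; 4 * I, 0, 5 * I, 0; 0, -5 * I, 0, -4 * I; 5 * I, 0, 4 * I, 0],
    !![1, 0, 0, 0; 0, 1, 0, 0; 0, 0, -1, 0; 0, 0, 0, -1]]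

theorem baseA_isHermitian (j : Fin 3) : (baseA j).IsHermitian := by
  fin_cases j <;> ext a b <;> fin_cases a <;> fin_cases b <;>
    simp [baseA, Matrix.conjTranspose_apply]

/-- The circle of radius `√5` in the plane `z = 0` together with the points `(0, 0, ±1)`. -/
def baseSet : Set (Fin 3 → ℝ) :=
  {v | (v 2 = 0 ∧ v 0 ^ 2 + v 1 ^ 2 = 5) ∨ (v 0 = 0 ∧ v 1 = 0 ∧ v 2 ^ 2 = 1)}

theorem comp_mulVec_apply (L : Matrix (Fin 4) (Fin 4) (Matrix (Fin 2) (Fin 2) ℂ))
    (v : Fin 4 × Fin 2 → ℂ) (a : Fin 4) (s : Fin 2) :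
    (Matrix.compRingEquiv (Fin 4) (Fin 2) ℂ L *ᵥ v) (a, s)
      = ∑ b, ∑ t, L a b s t * v (b, t) := by
  rw [Matrix.mulVec, dotProduct, Fintype.sum_prod_type]
  rfl

theorem localizer_pauli_apply (A : Fin 3 → Matrix (Fin 4) (Fin 4) ℂ) (lam : Fin 3 → ℝ)
    (a b : Fin 4) : localizer pauli A lam a b
      = (A 0 a b - if a = b then (lam 0 : ℂ) else 0) • pauli 0
        + (A 1 a b - if a = b then (lam 1 : ℂ) else 0) • pauli 1
        + (A 2 a b - if a = b then (lam 2 : ℂ) else 0) • pauli 2 := by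
  simp [localizer, Fin.sum_univ_three, Matrix.one_apply]

theorem row00 (lam : Fin 3 → ℝ) (v : Fin 4 × Fin 2 → ℂ) :
    (Matrix.compRingEquiv (Fin 4) (Fin 2) ℂ (localizer pauli baseA lam) *ᵥ v) (0, 0)
      = (1 - (lam 2 : ℂ)) * v (0, 0) - (lam 0 - I * lam 1) * v (0, 1) := by
  rw [comp_mulVec_apply]
  simp only [localizer_pauli_apply]
  simp [Fin.sum_univ_succ, baseA, pauli]
  ring_nf
  try simp [Complex.I_sq]
  try ring

theorem row01 (lam : Fin 3 → ℝ) (v : Fin 4 × Fin 2 → ℂ) :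
    (Matrix.compRingEquiv (Fin 4) (Fin 2) ℂ (localizer pauli baseA lam) *ᵥ v) (0, 1)
      = -(lam 0 + I * lam 1) * v (0, 0) - (1 - (lam 2 : ℂ)) * v (0, 1) + 8 * v (1, 0)
        + 10 * v (3, 0) := by
  rw [comp_mulVec_apply]
  simp only [localizer_pauli_apply]
  simp [Fin.sum_univ_succ, baseA, pauli]
  ring_nf
  try simp [Complex.I_sq]
  try ring

theorem row10 (lam : Fin 3 → ℝ) (v : Fin 4 × Fin 2 → ℂ) :
    (Matrix.compRingEquiv (Fin 4) (Fin 2) ℂ (localizer pauli baseA lam) *ᵥ v) (1, 0)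
      = 8 * v (0, 1) + 10 * v (2, 1) + (1 - (lam 2 : ℂ)) * v (1, 0)
        - (lam 0 - I * lam 1) * v (1, 1) := by
  rw [comp_mulVec_apply]
  simp only [localizer_pauli_apply]
  simp [Fin.sum_univ_succ, baseA, pauli]
  ring_nf
  try simp [Complex.I_sq]
  try ring

theorem row11 (lam : Fin 3 → ℝ) (v : Fin 4 × Fin 2 → ℂ) :
    (Matrix.compRingEquiv (Fin 4) (Fin 2) ℂ (localizer pauli baseA lam) *ᵥ v) (1, 1)
      = -(lam 0 + I * lam 1) * v (1, 0) - (1 - (lam 2 : ℂ)) * v (1, 1) := by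
  rw [comp_mulVec_apply]
  simp only [localizer_pauli_apply]
  simp [Fin.sum_univ_succ, baseA, pauli]
  ring_nf
  try simp [Complex.I_sq]
  try ring

theorem row20 (lam : Fin 3 → ℝ) (v : Fin 4 × Fin 2 → ℂ) :
    (Matrix.compRingEquiv (Fin 4) (Fin 2) ℂ (localizer pauli baseA lam) *ᵥ v) (2, 0)
      = (-1 - (lam 2 : ℂ)) * v (2, 0) - (lam 0 - I * lam 1) * v (2, 1) := by
  rw [comp_mulVec_apply]
  simp only [localizer_pauli_apply]
  simp [Fin.sum_univ_succ, baseA, pauli]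
  ring_nf
  try simp [Complex.I_sq]
  try ring

theorem row21 (lam : Fin 3 → ℝ) (v : Fin 4 × Fin 2 → ℂ) :
    (Matrix.compRingEquiv (Fin 4) (Fin 2) ℂ (localizer pauli baseA lam) *ᵥ v) (2, 1)
      = -(lam 0 + I * lam 1) * v (2, 0) - (-1 - (lam 2 : ℂ)) * v (2, 1) + 10 * v (1, 0)
        + 8 * v (3, 0) := by
  rw [comp_mulVec_apply]
  simp only [localizer_pauli_apply]
  simp [Fin.sum_univ_succ, baseA, pauli]
  ring_nf
  try simp [Complex.I_sq]
  try ring

theorem row30 (lam : Fin 3 → ℝ) (v : Fin 4 × Fin 2 → ℂ) :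
    (Matrix.compRingEquiv (Fin 4) (Fin 2) ℂ (localizer pauli baseA lam) *ᵥ v) (3, 0)
      = 10 * v (0, 1) + 8 * v (2, 1) + (-1 - (lam 2 : ℂ)) * v (3, 0)
        - (lam 0 - I * lam 1) * v (3, 1) := by
  rw [comp_mulVec_apply]
  simp only [localizer_pauli_apply]
  simp [Fin.sum_univ_succ, baseA, pauli]
  ring_nf
  try simp [Complex.I_sq]
  try ring

theorem row31 (lam : Fin 3 → ℝ) (v : Fin 4 × Fin 2 → ℂ) :
    (Matrix.compRingEquiv (Fin 4) (Fin 2) ℂ (localizer pauli baseA lam) *ᵥ v) (3, 1)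
      = -(lam 0 + I * lam 1) * v (3, 0) - (-1 - (lam 2 : ℂ)) * v (3, 1) := by
  rw [comp_mulVec_apply]
  simp only [localizer_pauli_apply]
  simp [Fin.sum_univ_succ, baseA, pauli]
  ring_nf
  try simp [Complex.I_sq]
  try ring

theorem eq_zero_iff_comps (w : Fin 4 × Fin 2 → ℂ) :
    w = 0 ↔ (w (0, 0) = 0 ∧ w (0, 1) = 0 ∧ w (1, 0) = 0 ∧ w (1, 1) = 0) ∧
      (w (2, 0) = 0 ∧ w (2, 1) = 0 ∧ w (3, 0) = 0 ∧ w (3, 1) = 0) := by
  constructor
  · rintro rfl
    simp
  · rintro ⟨⟨h0, h1, h2, h3⟩, h4, h5, h6, h7⟩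
    funext ⟨a, s⟩
    fin_cases a <;> fin_cases s <;> assumption

/-- The `2 × 2` system. -/
theorem two_system (R p q V W D : ℂ) (c : ℂ)
    (hD : (R + p ^ 2 - 8 * c * p) * (R + q ^ 2 - 8 * c * q) + 100 * p * q = D) (hD0 : D ≠ 0)
    (hc : c ^ 2 = -1)
    (E1 : (R + p ^ 2 - 8 * c * p) * V - 10 * c * q * W = 0)
    (E2 : (R + q ^ 2 - 8 * c * q) * W - 10 * c * p * V = 0) : V = 0 ∧ W = 0 := by
  constructor
  · have h : D * V = 0 := by
      rw [← hD]
      linear_combination (R + q ^ 2 - 8 * c * q) * E1 + 10 * c * q * E2 + 100 * p * q * V * hc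
    exact (mul_eq_zero.1 h).resolve_left hD0
  · have h : D * W = 0 := by
      rw [← hD]
      linear_combination (R + p ^ 2 - 8 * c * p) * E2 + 10 * c * p * E1 + 100 * p * q * W * hc
    exact (mul_eq_zero.1 h).resolve_left hD0

theorem det_ne (x y z : ℝ) (hxy : x ^ 2 + y ^ 2 ≠ 0)
    (hn1 : ¬ (z = 0 ∧ x ^ 2 + y ^ 2 = 5)) :
    ¬ ((x ^ 2 + y ^ 2 + z ^ 2) ^ 2 + 2 * (x ^ 2 + y ^ 2 + z ^ 2) + 32 * z ^ 2 - 35 = 0 ∧
      16 * z * (x ^ 2 + y ^ 2 + z ^ 2 - 1) = 0) := by
  rintro ⟨h1, h2⟩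
  rcases mul_eq_zero.1 h2 with h | h
  · have hz : z = 0 := by linarith
    apply hn1
    refine ⟨hz, ?_⟩
    subst hz
    have h3 : (x ^ 2 + y ^ 2 - 5) * (x ^ 2 + y ^ 2 + 7) = 0 := by linear_combination h1
    rcases mul_eq_zero.1 h3 with h | h
    · linarith
    · nlinarith [sq_nonneg x, sq_nonneg y]
  · have h3 : x ^ 2 + y ^ 2 + z ^ 2 = 1 := by linarith
    rw [h3] at h1
    apply hxy
    linarith

/-- The kernel of the localizer is trivial off `baseSet`. -/
theorem ker_trivial (x y z : ℝ) (s1 s2 s3 s4 t1 t2 t3 t4 : ℂ)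
    (h1 : (1 - (z : ℂ)) * s1 - (x - I * y) * s2 = 0)
    (h2 : -(x + I * y) * s1 - (1 - (z : ℂ)) * s2 + 8 * s3 + 10 * t3 = 0)
    (h3 : 8 * s2 + 10 * t2 + (1 - (z : ℂ)) * s3 - (x - I * y) * s4 = 0)
    (h4 : -(x + I * y) * s3 - (1 - (z : ℂ)) * s4 = 0)
    (k1 : (-1 - (z : ℂ)) * t1 - (x - I * y) * t2 = 0)
    (k2 : -(x + I * y) * t1 - (-1 - (z : ℂ)) * t2 + 10 * s3 + 8 * t3 = 0)
    (k3 : 10 * s2 + 8 * t2 + (-1 - (z : ℂ)) * t3 - (x - I * y) * t4 = 0)
    (k4 : -(x + I * y) * t3 - (-1 - (z : ℂ)) * t4 = 0)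
    (hn1 : ¬ (z = 0 ∧ x ^ 2 + y ^ 2 = 5)) (hn2 : ¬ (x = 0 ∧ y = 0 ∧ z ^ 2 = 1)) :
    (s1 = 0 ∧ s2 = 0 ∧ s3 = 0 ∧ s4 = 0) ∧ (t1 = 0 ∧ t2 = 0 ∧ t3 = 0 ∧ t4 = 0) := by
  have hI2 : I ^ 2 = -1 := Complex.I_sq
  by_cases hxy : x ^ 2 + y ^ 2 = 0
  · have hx : x = 0 := by nlinarith [sq_nonneg x, sq_nonneg y]
    have hy : y = 0 := by nlinarith [sq_nonneg x, sq_nonneg y]
    subst hx
    subst hy
    have hz : z ^ 2 ≠ 1 := fun h => hn2 ⟨rfl, rfl, h⟩
    obtain ⟨p, hpd⟩ : ∃ p : ℂ, p = 1 - (z : ℂ) := ⟨_, rfl⟩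
    obtain ⟨q, hqd⟩ : ∃ q : ℂ, q = -1 - (z : ℂ) := ⟨_, rfl⟩
    have hp : p ≠ 0 := by
      intro h
      apply hz
      have : (z : ℂ) = 1 := by linear_combination hpd - h
      have : z = 1 := by exact_mod_cast this
      rw [this]; norm_num
    have hq : q ≠ 0 := by
      intro h
      apply hz
      have : (z : ℂ) = -1 := by linear_combination hqd - h
      have : z = -1 := by exact_mod_cast this
      rw [this]; norm_num
    rw [← hpd] at h1 h2 h3 h4
    rw [← hqd] at k1 k2 k3 k4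
    simp only [Complex.ofReal_zero, mul_zero, sub_zero, add_zero, zero_mul, neg_zero, zero_sub,
      neg_eq_zero, zero_add] at h1 h2 h3 h4 k1 k2 k3 k4
    have hs1 : s1 = 0 := (mul_eq_zero.1 h1).resolve_left hp
    have ht1 : t1 = 0 := (mul_eq_zero.1 k1).resolve_left hq
    have hs4 : s4 = 0 := (mul_eq_zero.1 h4).resolve_left hp
    have ht4 : t4 = 0 := (mul_eq_zero.1 k4).resolve_left hq
    have hD : ((z : ℂ) ^ 4 + 326 * z ^ 2 + 1225) ≠ 0 := by
      intro h
      have : z ^ 4 + 326 * z ^ 2 + 1225 = 0 := by exact_mod_cast h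
      nlinarith [sq_nonneg z, sq_nonneg (z ^ 2)]
    have hN : (p ^ 2 * q + 64 * q + 100 * p) * (p * q ^ 2 + 100 * q + 64 * p)
        - 6400 * (p + q) ^ 2 = ((z : ℂ) ^ 4 + 326 * z ^ 2 + 1225) * (p * q) := by
      rw [hpd, hqd]; ring
    have hc : ((z : ℂ) ^ 4 + 326 * z ^ 2 + 1225) * (p * q) ≠ 0 :=
      mul_ne_zero hD (mul_ne_zero hp hq)
    have E1 : (p ^ 2 * q + 64 * q + 100 * p) * s2 + 80 * (p + q) * t2 = 0 := by
      linear_combination -(p * q) * h2 + 8 * q * h3 + 10 * p * k3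
    have E2 : 80 * (p + q) * s2 + (p * q ^ 2 + 100 * q + 64 * p) * t2 = 0 := by
      linear_combination -(p * q) * k2 + 10 * q * h3 + 8 * p * k3
    have hs2 : s2 = 0 := by
      have : (((z : ℂ) ^ 4 + 326 * z ^ 2 + 1225) * (p * q)) * s2 = 0 := by
        rw [← hN]
        linear_combination (p * q ^ 2 + 100 * q + 64 * p) * E1 - 80 * (p + q) * E2
      exact (mul_eq_zero.1 this).resolve_left hc
    have ht2 : t2 = 0 := by
      have : (((z : ℂ) ^ 4 + 326 * z ^ 2 + 1225) * (p * q)) * t2 = 0 := by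
        rw [← hN]
        linear_combination (p ^ 2 * q + 64 * q + 100 * p) * E2 - 80 * (p + q) * E1
      exact (mul_eq_zero.1 this).resolve_left hc
    have hs3 : s3 = 0 := by
      rw [hs2, ht2, mul_zero, mul_zero, zero_add, zero_add] at h3
      exact (mul_eq_zero.1 h3).resolve_left hp
    have ht3 : t3 = 0 := by
      rw [hs2, ht2, mul_zero, mul_zero, zero_add, zero_add] at k3
      exact (mul_eq_zero.1 k3).resolve_left hq
    exact ⟨⟨hs1, hs2, hs3, hs4⟩, ht1, ht2, ht3, ht4⟩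
  · have hd := det_ne x y z hxy hn1
    obtain ⟨p, hpd⟩ : ∃ p : ℂ, p = 1 - (z : ℂ) := ⟨_, rfl⟩
    obtain ⟨q, hqd⟩ : ∃ q : ℂ, q = -1 - (z : ℂ) := ⟨_, rfl⟩
    obtain ⟨w, hw⟩ : ∃ w : ℂ, w = (x : ℂ) + I * y := ⟨_, rfl⟩
    obtain ⟨wb, hwb⟩ : ∃ wb : ℂ, wb = (x : ℂ) - I * y := ⟨_, rfl⟩
    have hR : w * wb = (x : ℂ) ^ 2 + y ^ 2 := by
      rw [hw, hwb]; linear_combination (-(y : ℂ) ^ 2) * hI2
    have hR0 : (x : ℂ) ^ 2 + y ^ 2 ≠ 0 := by exact_mod_cast hxy
    have hw0 : w ≠ 0 := by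
      intro h; rw [h, zero_mul] at hR; exact hR0 hR.symm
    have hwb0 : wb ≠ 0 := by
      intro h; rw [h, mul_zero] at hR; exact hR0 hR.symm
    rw [← hpd, ← hwb] at h1
    rw [← hpd, ← hw] at h2
    rw [← hpd, ← hwb] at h3
    rw [← hpd, ← hw] at h4
    rw [← hqd, ← hwb] at k1
    rw [← hqd, ← hw] at k2
    rw [← hqd, ← hwb] at k3
    rw [← hqd, ← hw] at k4
    have A1 : (w * wb + p ^ 2) * (w * s1) + 8 * p * (wb * s4) + 10 * q * (wb * t4) = 0 := by
      linear_combination -(w * wb * h2) + w * p * h1 - 8 * wb * h4 - 10 * wb * k4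
    have A2 : (w * wb + q ^ 2) * (w * t1) + 10 * p * (wb * s4) + 8 * q * (wb * t4) = 0 := by
      linear_combination -(w * wb * k2) + w * q * k1 - 10 * wb * h4 - 8 * wb * k4
    have B1 : (w * wb + p ^ 2) * (wb * s4) - 8 * p * (w * s1) - 10 * q * (w * t1) = 0 := by
      linear_combination -(w * wb * h3) - p * wb * h4 - 8 * w * h1 - 10 * w * k1
    have B2 : (w * wb + q ^ 2) * (wb * t4) - 10 * p * (w * s1) - 8 * q * (w * t1) = 0 := by
      linear_combination -(w * wb * k3) - q * wb * k4 - 10 * w * h1 - 8 * w * k1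
    have hDne : ∀ c : ℂ, c = I ∨ c = -I →
        (w * wb + p ^ 2 - 8 * c * p) * (w * wb + q ^ 2 - 8 * c * q) + 100 * p * q ≠ 0 := by
      intro c hc
      have hcc : c ^ 2 = -1 := by
        rcases hc with rfl | rfl
        · exact hI2
        · rw [neg_sq]; exact hI2
      have hexp : (w * wb + p ^ 2 - 8 * c * p) * (w * wb + q ^ 2 - 8 * c * q) + 100 * p * q
          = (((x ^ 2 + y ^ 2 + z ^ 2) ^ 2 + 2 * (x ^ 2 + y ^ 2 + z ^ 2) + 32 * z ^ 2 - 35 : ℝ) : ℂ)
            + c * ((16 * z * (x ^ 2 + y ^ 2 + z ^ 2 - 1) : ℝ) : ℂ) := by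
        rw [hR, hpd, hqd]
        push_cast
        linear_combination (64 * (1 - (z : ℂ)) * (-1 - z)) * hcc
      rw [hexp]
      intro h0
      apply hd
      have hre := congrArg Complex.re h0
      have him := congrArg Complex.im h0
      simp only [Complex.add_re, Complex.add_im, Complex.mul_re, Complex.mul_im,
        Complex.ofReal_re, Complex.ofReal_im, Complex.zero_re, Complex.zero_im] at hre him
      rcases hc with rfl | rfl
      · simp only [Complex.I_re, Complex.I_im] at hre him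
        exact ⟨by linarith, by linarith⟩
      · simp only [Complex.neg_re, Complex.neg_im, Complex.I_re, Complex.I_im] at hre him
        exact ⟨by linarith, by linarith⟩
    obtain ⟨hV, hW⟩ := two_system (w * wb) p q (w * s1 + I * (wb * s4)) (w * t1 + I * (wb * t4)) _ I
      rfl (hDne I (Or.inl rfl)) hI2
      (by linear_combination A1 + I * B1 - (8 * p * wb * s4 + 10 * q * wb * t4) * hI2)
      (by linear_combination A2 + I * B2 - (10 * p * wb * s4 + 8 * q * wb * t4) * hI2)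
    have hI2' : (-I) ^ 2 = -1 := by rw [neg_sq]; exact hI2
    obtain ⟨hV', hW'⟩ := two_system (w * wb) p q (w * s1 + (-I) * (wb * s4))
      (w * t1 + (-I) * (wb * t4)) _ (-I)
      rfl (hDne (-I) (Or.inr rfl)) hI2'
      (by linear_combination A1 + (-I) * B1 - (8 * p * wb * s4 + 10 * q * wb * t4) * hI2)
      (by linear_combination A2 + (-I) * B2 - (10 * p * wb * s4 + 8 * q * wb * t4) * hI2)
    have hs1 : s1 = 0 := by
      have : w * s1 = 0 := by linear_combination (hV + hV') / 2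
      exact (mul_eq_zero.1 this).resolve_left hw0
    have ht1 : t1 = 0 := by
      have : w * t1 = 0 := by linear_combination (hW + hW') / 2
      exact (mul_eq_zero.1 this).resolve_left hw0
    have hs4 : s4 = 0 := by
      have : I * (wb * s4) = 0 := by linear_combination (hV - hV') / 2
      rcases mul_eq_zero.1 this with h | h
      · exact absurd h Complex.I_ne_zero
      · exact (mul_eq_zero.1 h).resolve_left hwb0
    have ht4 : t4 = 0 := by
      have : I * (wb * t4) = 0 := by linear_combination (hW - hW') / 2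
      rcases mul_eq_zero.1 this with h | h
      · exact absurd h Complex.I_ne_zero
      · exact (mul_eq_zero.1 h).resolve_left hwb0
    have hs2 : s2 = 0 := by
      have : wb * s2 = 0 := by rw [hs1] at h1; linear_combination -h1
      exact (mul_eq_zero.1 this).resolve_left hwb0
    have ht2 : t2 = 0 := by
      have : wb * t2 = 0 := by rw [ht1] at k1; linear_combination -k1
      exact (mul_eq_zero.1 this).resolve_left hwb0
    have hs3 : s3 = 0 := by
      have : w * s3 = 0 := by rw [hs4] at h4; linear_combination -h4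
      exact (mul_eq_zero.1 this).resolve_left hw0
    have ht3 : t3 = 0 := by
      have : w * t3 = 0 := by rw [ht4] at k4; linear_combination -k4
      exact (mul_eq_zero.1 this).resolve_left hw0
    exact ⟨⟨hs1, hs2, hs3, hs4⟩, ht1, ht2, ht3, ht4⟩

/-- The Clifford spectrum of the basic triple, computed with the Pauli matrices. -/
theorem isUnit_pauli_base (lam : Fin 3 → ℝ) :
    IsUnit (localizer pauli baseA lam) ↔ lam ∉ baseSet := by
  set c := Matrix.compRingEquiv (Fin 4) (Fin 2) ℂ with hc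
  have h1 : IsUnit (localizer pauli baseA lam) ↔ IsUnit (c (localizer pauli baseA lam)) := by
    constructor
    · intro h
      exact h.map c
    · intro h
      have := h.map c.symm
      simpa using this
  rw [h1, Matrix.isUnit_iff_isUnit_det, isUnit_iff_ne_zero, not_iff_not.symm, not_not, not_not,
    ← Matrix.exists_mulVec_eq_zero_iff]
  constructor
  · rintro ⟨v, hv, hv0⟩
    by_contra hlam
    apply hv
    rw [eq_zero_iff_comps] at hv0 ⊢
    rw [row00, row01, row10, row11, row20, row21, row30, row31] at hv0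
    obtain ⟨⟨a1, a2, a3, a4⟩, b1, b2, b3, b4⟩ := hv0
    have hn : ¬ (lam 2 = 0 ∧ lam 0 ^ 2 + lam 1 ^ 2 = 5) ∧
        ¬ (lam 0 = 0 ∧ lam 1 = 0 ∧ lam 2 ^ 2 = 1) := by
      constructor
      · exact fun h => hlam (Or.inl h)
      · exact fun h => hlam (Or.inr h)
    exact ker_trivial (lam 0) (lam 1) (lam 2) _ _ _ _ _ _ _ _ a1 a2 a3 a4 b1 b2 b3 b4 hn.1 hn.2
  · rintro (⟨hz, hr⟩ | ⟨hx, hy, hz⟩)
    · obtain ⟨w, hw⟩ : ∃ w : ℂ, w = (lam 0 : ℂ) + I * lam 1 := ⟨_, rfl⟩
      obtain ⟨wb, hwb⟩ : ∃ wb : ℂ, wb = (lam 0 : ℂ) - I * lam 1 := ⟨_, rfl⟩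
      have hI2 : I ^ 2 = -1 := Complex.I_sq
      have hr' : (lam 0 : ℂ) ^ 2 + lam 1 ^ 2 = 5 := by exact_mod_cast hr
      have hR : w * wb = 5 := by
        rw [hw, hwb]; linear_combination (-(lam 1 : ℂ) ^ 2) * hI2 + hr'
      refine ⟨fun a => (![![-5 * I * wb, -5 * I], ![5, -5 * w], ![(3 - 4 * I) * wb, -(3 - 4 * I)],
        ![-4 - 3 * I, (-4 - 3 * I) * w]] a.1) a.2, ?_, ?_⟩
      · intro h
        have := congrFun h (0, 1)
        simp at this
      · rw [eq_zero_iff_comps, row00, row01, row10, row11, row20, row21, row30, row31, ← hw, ← hwb,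
          hz]
        simp only [Matrix.cons_val_zero, Matrix.cons_val_one, Complex.ofReal_zero, sub_zero,
          Matrix.cons_val, Fin.isValue]
        refine ⟨⟨?_, ?_, ?_, ?_⟩, ?_, ?_, ?_, ?_⟩
        · ring
        · linear_combination (5 * I) * hR
        · linear_combination 5 * hR
        · ring
        · ring
        · linear_combination (-(3 - 4 * I)) * hR
        · linear_combination (4 + 3 * I) * hR
        · ring
    · have hz' : lam 2 = 1 ∨ lam 2 = -1 := by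
        have h5 : (lam 2 - 1) * (lam 2 + 1) = 0 := by linear_combination hz
        rcases mul_eq_zero.1 h5 with h | h
        · left; linarith
        · right; linarith
      rcases hz' with hz1 | hz1
      · refine ⟨fun a => if a = (0, 0) then 1 else 0, ?_, ?_⟩
        · intro h
          have := congrFun h (0, 0)
          simp at this
        · rw [eq_zero_iff_comps, row00, row01, row10, row11, row20, row21, row30, row31, hx, hy,
            hz1]
          simp
      · refine ⟨fun a => if a = (2, 0) then 1 else 0, ?_, ?_⟩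
        · intro h
          have := congrFun h (2, 0)
          simp at this
        · rw [eq_zero_iff_comps, row00, row01, row10, row11, row20, row21, row30, row31, hx, hy,
            hz1]
          simp

/-- The spectrum of the basic triple for any generators of any nontrivial complex algebra. -/
theorem spectrumIn_base {R : Type*} [Ring R] [Algebra ℂ R] [Nontrivial R] {e : Fin 3 → R}
    (he : IsCliffordFamily e) : spectrumIn e baseA = baseSet := by
  ext lam
  rw [spectrumIn, Set.mem_setOf_eq, isUnit_localizer_iff he, isUnit_pauli_base, not_not]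

end Pool.Agent.R279.CS
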