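import Pool.Agent.R279.CS.Ker

/-!
# Direct sums, reindexing and the `8 × 8` triple
-/

namespace Pool.Agent.R279.CS

open Matrix

section General

variable {R : Type*} [Ring R] [Algebra ℂ R] {d : ℕ} {ι κ : Type*} [Fintype ι] [DecidableEq ι]
  [Fintype κ] [DecidableEq κ]

omit [Algebra ℂ R] in
theorem isUnit_fromBlocks_diag (X : Matrix ι ι R) (Y : Matrix κ κ R) :
    IsUnit (Matrix.fromBlocks X 0 0 Y) ↔ IsUnit X ∧ IsUnit Y := by
  constructor
  · rintro ⟨u, hu⟩
    have h1 : Matrix.fromBlocks X 0 0 Y * (↑u⁻¹ : Matrix (ι ⊕ κ) (ι ⊕ κ) R) = 1 := by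
      rw [← hu]; exact u.mul_inv
    have h2 : (↑u⁻¹ : Matrix (ι ⊕ κ) (ι ⊕ κ) R) * Matrix.fromBlocks X 0 0 Y = 1 := by
      rw [← hu]; exact u.inv_mul
    rw [← Matrix.fromBlocks_toBlocks (↑u⁻¹ : Matrix (ι ⊕ κ) (ι ⊕ κ) R),
      Matrix.fromBlocks_multiply, ← Matrix.fromBlocks_one, Matrix.fromBlocks_inj] at h1 h2
    obtain ⟨a1, -, -, a4⟩ := h1
    obtain ⟨b1, -, -, b4⟩ := h2
    simp only [Matrix.zero_mul, add_zero, zero_add, Matrix.mul_zero] at a1 a4 b1 b4
    exact ⟨⟨⟨_, _, a1, b1⟩, rfl⟩, ⟨⟨_, _, a4, b4⟩, rfl⟩⟩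
  · rintro ⟨⟨u, rfl⟩, ⟨v, rfl⟩⟩
    refine ⟨⟨Matrix.fromBlocks u 0 0 v, Matrix.fromBlocks ↑u⁻¹ 0 0 ↑v⁻¹, ?_, ?_⟩, rfl⟩ <;>
      simp [Matrix.fromBlocks_multiply, Matrix.fromBlocks_one]

theorem localizer_fromBlocks (e : Fin d → R) (A : Fin d → Matrix ι ι ℂ) (B : Fin d → Matrix κ κ ℂ)
    (lam : Fin d → ℝ) :
    localizer e (fun j => Matrix.fromBlocks (A j) 0 0 (B j)) lam
      = Matrix.fromBlocks (localizer e A lam) 0 0 (localizer e B lam) := by
  ext i k
  rcases i with i | i <;> rcases k with k | k <;>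
    simp [localizer, Matrix.sum_apply, Matrix.one_apply]

theorem spectrumIn_fromBlocks (e : Fin d → R) (A : Fin d → Matrix ι ι ℂ)
    (B : Fin d → Matrix κ κ ℂ) :
    spectrumIn e (fun j => Matrix.fromBlocks (A j) 0 0 (B j)) = spectrumIn e A ∪ spectrumIn e B := by
  ext lam
  simp only [spectrumIn, Set.mem_setOf_eq, Set.mem_union, localizer_fromBlocks,
    isUnit_fromBlocks_diag]
  tauto

theorem localizer_reindex (e : Fin d → R) (A : Fin d → Matrix ι ι ℂ) (f : ι ≃ κ)
    (lam : Fin d → ℝ) :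
    localizer e (fun j => Matrix.reindex f f (A j)) lam = Matrix.reindex f f (localizer e A lam) := by
  ext i k
  simp [localizer, Matrix.sum_apply, Matrix.one_apply]

theorem spectrumIn_reindex (e : Fin d → R) (A : Fin d → Matrix ι ι ℂ) (f : ι ≃ κ) :
    spectrumIn e (fun j => Matrix.reindex f f (A j)) = spectrumIn e A := by
  ext lam
  simp only [spectrumIn, Set.mem_setOf_eq, localizer_reindex]
  rw [not_iff_not]
  have h := Matrix.reindexRingEquiv (R := R) f
  constructor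
  · intro hu
    have := hu.map (Matrix.reindexRingEquiv (R := R) f).symm
    simpa using this
  · intro hu
    exact hu.map (Matrix.reindexRingEquiv (R := R) f)

end General

/-- The rigid motion `(x, y, z) ↦ (2 - x, z, y)`. -/
def flip3 (v : Fin 3 → ℝ) : Fin 3 → ℝ := ![2 - v 0, v 2, v 1]

/-- The second triple. -/
noncomputable def baseB : Fin 3 → Matrix (Fin 4) (Fin 4) ℂ :=
  ![(2 : ℂ) • (1 : Matrix (Fin 4) (Fin 4) ℂ) - baseA 0, baseA 2, baseA 1]

theorem baseB_isHermitian (j : Fin 3) : (baseB j).IsHermitian := by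
  fin_cases j
  · change ((2 : ℂ) • (1 : Matrix (Fin 4) (Fin 4) ℂ) - baseA 0).IsHermitian
    refine Matrix.IsHermitian.sub ?_ (baseA_isHermitian 0)
    ext a b
    simp only [Matrix.conjTranspose_apply, Matrix.smul_apply, Matrix.one_apply]
    split_ifs with h1 h2 h2
    · simp
    · exact absurd h1.symm h2
    · exact absurd h2.symm h1
    · simp
  · exact baseA_isHermitian 2
  · exact baseA_isHermitian 1

section FlipR

variable {R : Type*} [Ring R] [Algebra ℂ R]

/-- The changed generators. -/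
def flipGen (e : Fin 3 → R) : Fin 3 → R := ![-e 0, e 2, e 1]

omit [Algebra ℂ R] in
theorem flipGen_isCliffordFamily {e : Fin 3 → R} (he : IsCliffordFamily e) :
    IsCliffordFamily (flipGen e) := by
  obtain ⟨h1, h2⟩ := he
  constructor
  · intro j
    fin_cases j
    · simpa [flipGen] using h1 0
    · simpa [flipGen] using h1 2
    · simpa [flipGen] using h1 1
  · intro j k hjk
    fin_cases j <;> fin_cases k <;> first
      | (exact absurd rfl hjk)
      | skip
    · simp [flipGen, h2 0 2 (by decide)]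
    · simp [flipGen, h2 0 1 (by decide)]
    · simp [flipGen, h2 2 0 (by decide)]
    · simpa [flipGen] using h2 2 1 (by decide)
    · simp [flipGen, h2 1 0 (by decide)]
    · simpa [flipGen] using h2 1 2 (by decide)

theorem localizer_baseB (e : Fin 3 → R) (lam : Fin 3 → ℝ) :
    localizer e baseB lam = localizer (flipGen e) baseA (flip3 lam) := by
  ext a b
  simp only [localizer, Fin.sum_univ_three, Matrix.add_apply, Matrix.map_apply]
  simp only [baseB, flipGen, flip3, Matrix.cons_val_zero, Matrix.cons_val_one, Matrix.cons_val,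
    Fin.isValue, Matrix.sub_apply, Matrix.smul_apply, smul_eq_mul, Complex.ofReal_sub,
    Complex.ofReal_ofNat]
  module

theorem spectrumIn_baseB [Nontrivial R] {e : Fin 3 → R} (he : IsCliffordFamily e) :
    spectrumIn e baseB = flip3 ⁻¹' baseSet := by
  ext lam
  have h := Set.ext_iff.1 (spectrumIn_base (flipGen_isCliffordFamily he)) (flip3 lam)
  rw [spectrumIn, Set.mem_setOf_eq, localizer_baseB]
  exact h

end FlipR

/-- The `8 × 8` triple. -/
noncomputable def bigA (j : Fin 3) : Matrix (Fin 8) (Fin 8) ℂ :=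
  Matrix.reindex (finSumFinEquiv : Fin 4 ⊕ Fin 4 ≃ Fin 8) (finSumFinEquiv : Fin 4 ⊕ Fin 4 ≃ Fin 8)
    (Matrix.fromBlocks (baseA j) 0 0 (baseB j))

theorem bigA_isHermitian (j : Fin 3) : (bigA j).IsHermitian := by
  unfold bigA
  rw [Matrix.reindex_apply]
  refine Matrix.IsHermitian.submatrix ?_ _
  exact Matrix.IsHermitian.fromBlocks (baseA_isHermitian j) (by simp) (baseB_isHermitian j)

/-- Two disjoint (linked) circles. -/
def circleA : Set (Fin 3 → ℝ) := {v | v 2 = 0 ∧ v 0 ^ 2 + v 1 ^ 2 = 5}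

/-- The second circle. -/
def circleB : Set (Fin 3 → ℝ) := {v | v 1 = 0 ∧ (v 0 - 2) ^ 2 + v 2 ^ 2 = 5}

theorem spectrumIn_bigA {R : Type*} [Ring R] [Algebra ℂ R] [Nontrivial R] {e : Fin 3 → R}
    (he : IsCliffordFamily e) : spectrumIn e bigA = circleA ∪ circleB := by
  have h : spectrumIn e bigA
      = spectrumIn e (fun j => Matrix.fromBlocks (baseA j) 0 0 (baseB j)) :=
    spectrumIn_reindex e (fun j => Matrix.fromBlocks (baseA j) 0 0 (baseB j))
      (finSumFinEquiv : Fin 4 ⊕ Fin 4 ≃ Fin 8)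
  rw [h, spectrumIn_fromBlocks, spectrumIn_base he, spectrumIn_baseB he]
  ext v
  simp only [Set.mem_union, Set.mem_preimage, baseSet, circleA, circleB, Set.mem_setOf_eq, flip3,
    Matrix.cons_val_zero, Matrix.cons_val_one, Matrix.cons_val, Fin.isValue]
  constructor
  · rintro ((⟨h1, h2⟩ | ⟨h1, h2, h3⟩) | (⟨h1, h2⟩ | ⟨h1, h2, h3⟩))
    · left; exact ⟨h1, h2⟩
    · right; refine ⟨h2, ?_⟩; rw [h1, h3]; norm_num
    · right; refine ⟨h1, ?_⟩; linear_combination h2
    · left; refine ⟨h2, ?_⟩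
      have : v 0 = 2 := by linarith
      rw [this, h3]; norm_num
  · rintro (⟨h1, h2⟩ | ⟨h1, h2⟩)
    · left; left; exact ⟨h1, h2⟩
    · right; left; refine ⟨h1, ?_⟩; linear_combination h2

end Pool.Agent.R279.CS
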