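import Pool.Agent.R279.CS.Sum

/-!
# The union of the two circles is a one-manifold
-/

namespace Pool.Agent.R279.CS

theorem chart {E : Type*} [TopologicalSpace E] (S V : Set E) (hV : IsOpen V) (f : E → ℝ)
    (g : ℝ → E) (hf : ContinuousOn f V) (hg : Continuous g) (hgS : ∀ t, g t ∈ S)
    (hgV : ∀ t, g t ∈ V) (hfg : ∀ t, f (g t) = t) (hgf : ∀ p ∈ S, p ∈ V → g (f p) = p)
    (x : S) (hx : (x : E) ∈ V) :
    ∃ U : Set S, IsOpen U ∧ x ∈ U ∧ Nonempty (U ≃ₜ ℝ) := by
  refine ⟨Subtype.val ⁻¹' V, hV.preimage continuous_subtype_val, hx, ⟨?_⟩⟩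
  exact
    { toFun := fun u => f u.1.1
      invFun := fun t => ⟨⟨g t, hgS t⟩, hgV t⟩
      left_inv := fun u => Subtype.ext (Subtype.ext (hgf u.1.1 u.1.2 u.2))
      right_inv := fun t => hfg t
      continuous_toFun := by
        have h1 : Continuous (fun u : (Subtype.val ⁻¹' V : Set S) => (⟨u.1.1, u.2⟩ : V)) := by
          fun_prop
        exact (continuousOn_iff_continuous_restrict.1 hf).comp h1
      continuous_invFun := by fun_prop }

/-- Auxiliary: the radius. -/
noncomputable def rad : ℝ := Real.sqrt 5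

theorem rad_sq : rad ^ 2 = 5 := Real.sq_sqrt (by norm_num)
theorem rad_pos : 0 < rad := Real.sqrt_pos.2 (by norm_num)

/-- Stereographic coordinate on the first circle. -/
noncomputable def fA (s : ℝ) (p : Fin 3 → ℝ) : ℝ := p 1 / (rad + s * p 0)

/-- Rational parametrisation of the first circle. -/
noncomputable def gA (s : ℝ) (t : ℝ) : Fin 3 → ℝ :=
  ![s * rad * (1 - t ^ 2) / (1 + t ^ 2), 2 * rad * t / (1 + t ^ 2), 0]

/-- The domain of the chart. -/
def VA (s : ℝ) : Set (Fin 3 → ℝ) := {p | rad + s * p 0 ≠ 0} ∩ circleBᶜ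

theorem isClosed_circleB : IsClosed circleB := by
  have h1 : IsClosed {v : Fin 3 → ℝ | v 1 = 0} := isClosed_eq (by fun_prop) (by fun_prop)
  have h2 : IsClosed {v : Fin 3 → ℝ | (v 0 - 2) ^ 2 + v 2 ^ 2 = 5} :=
    isClosed_eq (by fun_prop) (by fun_prop)
  exact h1.inter h2

theorem isOpen_VA (s : ℝ) : IsOpen (VA s) := by
  refine IsOpen.inter ?_ isClosed_circleB.isOpen_compl
  exact isOpen_ne_fun (by fun_prop) (by fun_prop)

theorem disj {p : Fin 3 → ℝ} (hA : p ∈ circleA) (hB : p ∈ circleB) : False := by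
  obtain ⟨h1, h2⟩ := hA
  obtain ⟨h3, h4⟩ := hB
  rw [h3] at h2
  rw [h1] at h4
  nlinarith

theorem continuousOn_fA (s : ℝ) : ContinuousOn (fA s) (VA s) := by
  unfold fA
  refine ContinuousOn.div (by fun_prop) (by fun_prop) ?_
  intro p hp
  exact hp.1

theorem continuous_gA (s : ℝ) : Continuous (gA s) := by
  unfold gA
  refine continuous_pi fun i => ?_
  fin_cases i
  · change Continuous fun t : ℝ => s * rad * (1 - t ^ 2) / (1 + t ^ 2)
    exact Continuous.div (by fun_prop) (by fun_prop) (fun t => by positivity)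
  · change Continuous fun t : ℝ => 2 * rad * t / (1 + t ^ 2)
    exact Continuous.div (by fun_prop) (by fun_prop) (fun t => by positivity)
  · exact continuous_const

theorem gA_mem_circleA {s : ℝ} (hs : s ^ 2 = 1) (t : ℝ) : gA s t ∈ circleA := by
  refine ⟨rfl, ?_⟩
  change (s * rad * (1 - t ^ 2) / (1 + t ^ 2)) ^ 2 + (2 * rad * t / (1 + t ^ 2)) ^ 2 = 5
  have h : (1 + t ^ 2) ≠ 0 := by positivity
  have h5 := rad_sq
  field_simp
  linear_combination (rad ^ 2 * (1 - t ^ 2) ^ 2) * hs + ((1 + t ^ 2) ^ 2) * h5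

theorem gA_mem_VA {s : ℝ} (hs : s ^ 2 = 1) (t : ℝ) : gA s t ∈ VA s := by
  refine ⟨?_, fun hB => disj (gA_mem_circleA hs t) hB⟩
  change rad + s * (s * rad * (1 - t ^ 2) / (1 + t ^ 2)) ≠ 0
  have h : (1 + t ^ 2) ≠ 0 := by positivity
  have h2 : rad + s * (s * rad * (1 - t ^ 2) / (1 + t ^ 2)) = 2 * rad / (1 + t ^ 2) := by
    field_simp
    linear_combination (rad * (1 - t ^ 2)) * hs
  rw [h2]
  have := rad_pos
  positivity

theorem fA_gA {s : ℝ} (hs : s ^ 2 = 1) (t : ℝ) : fA s (gA s t) = t := by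
  change (2 * rad * t / (1 + t ^ 2)) / (rad + s * (s * rad * (1 - t ^ 2) / (1 + t ^ 2))) = t
  have h : (1 + t ^ 2) ≠ 0 := by positivity
  have h2 : rad + s * (s * rad * (1 - t ^ 2) / (1 + t ^ 2)) = 2 * rad / (1 + t ^ 2) := by
    field_simp
    linear_combination (rad * (1 - t ^ 2)) * hs
  rw [h2]
  have := rad_pos
  field_simp

theorem gA_fA {s : ℝ} (hs : s ^ 2 = 1) {p : Fin 3 → ℝ} (hA : p ∈ circleA) (hV : p ∈ VA s) :
    gA s (fA s p) = p := by
  obtain ⟨hz, hr⟩ := hA
  have hne : rad + s * p 0 ≠ 0 := hV.1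
  have h5 := rad_sq
  have hpos := rad_pos
  have h1 : 1 + fA s p ^ 2 = 2 * rad / (rad + s * p 0) := by
    unfold fA
    field_simp
    linear_combination (p 0 ^ 2) * hs + hr - h5
  have h2 : 1 - fA s p ^ 2 = 2 * s * p 0 / (rad + s * p 0) := by
    unfold fA
    field_simp
    linear_combination (-(p 0 ^ 2)) * hs - hr + h5
  funext i
  fin_cases i
  · change s * rad * (1 - fA s p ^ 2) / (1 + fA s p ^ 2) = p 0
    rw [h1, h2]
    field_simp
    linear_combination (p 0) * hs
  · change 2 * rad * fA s p / (1 + fA s p ^ 2) = p 1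
    rw [h1]
    unfold fA
    field_simp
  · exact hz.symm

theorem flip3_flip3 (v : Fin 3 → ℝ) : flip3 (flip3 v) = v := by
  funext i
  fin_cases i <;> simp [flip3]

theorem continuous_flip3 : Continuous flip3 := by
  unfold flip3
  refine continuous_pi fun i => ?_
  fin_cases i
  · change Continuous fun v : Fin 3 → ℝ => 2 - v 0
    fun_prop
  · change Continuous fun v : Fin 3 → ℝ => v 2
    fun_prop
  · change Continuous fun v : Fin 3 → ℝ => v 1
    fun_prop

theorem flip3_mem_circleA {v : Fin 3 → ℝ} : flip3 v ∈ circleA ↔ v ∈ circleB := by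
  simp only [circleA, circleB, flip3, Set.mem_setOf_eq, Matrix.cons_val_zero, Matrix.cons_val_one,
    Matrix.cons_val, Fin.isValue]
  constructor
  · rintro ⟨h1, h2⟩
    exact ⟨h1, by linear_combination h2⟩
  · rintro ⟨h1, h2⟩
    exact ⟨h1, by linear_combination h2⟩

theorem flip3_mem_circleB {v : Fin 3 → ℝ} : flip3 v ∈ circleB ↔ v ∈ circleA := by
  rw [← flip3_mem_circleA, flip3_flip3]

theorem mem_VA_of_circleA {p : Fin 3 → ℝ} (hA : p ∈ circleA) :
    ∃ s : ℝ, s ^ 2 = 1 ∧ p ∈ VA s := by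
  by_cases h : rad + 1 * p 0 = 0
  · refine ⟨-1, by norm_num, ?_, fun hB => disj hA hB⟩
    have := rad_pos
    change rad + (-1) * p 0 ≠ 0
    intro h'
    linarith
  · exact ⟨1, by norm_num, h, fun hB => disj hA hB⟩

theorem isOneManifold_circles : IsOneManifold ↥(circleA ∪ circleB) := by
  refine ⟨⟨⟨gA 1 0, Or.inl (gA_mem_circleA (by norm_num) 0)⟩⟩, inferInstance, ?_⟩
  rintro ⟨p, hp⟩
  rcases hp with hA | hB
  · obtain ⟨s, hs, hV⟩ := mem_VA_of_circleA hA
    refine chart _ (VA s) (isOpen_VA s) (fA s) (gA s) (continuousOn_fA s) (continuous_gA s)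
      (fun t => Or.inl (gA_mem_circleA hs t)) (gA_mem_VA hs) (fA_gA hs) ?_ _ hV
    rintro q (hq | hq) hqV
    · exact gA_fA hs hq hqV
    · exact absurd hq hqV.2
  · have hA' : flip3 p ∈ circleA := flip3_mem_circleA.2 hB
    obtain ⟨s, hs, hV⟩ := mem_VA_of_circleA hA'
    refine chart _ (flip3 ⁻¹' VA s) ((isOpen_VA s).preimage continuous_flip3) (fA s ∘ flip3)
      (flip3 ∘ gA s) ?_ (continuous_flip3.comp (continuous_gA s)) ?_ ?_ ?_ ?_ _ hV
    · exact (continuousOn_fA s).comp continuous_flip3.continuousOn (fun _ h => h)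
    · intro t
      exact Or.inr (flip3_mem_circleB.2 (gA_mem_circleA hs t))
    · intro t
      change flip3 (flip3 (gA s t)) ∈ VA s
      rw [flip3_flip3]
      exact gA_mem_VA hs t
    · intro t
      change fA s (flip3 (flip3 (gA s t))) = t
      rw [flip3_flip3]
      exact fA_gA hs t
    · rintro q (hq | hq) hqV
      · exact absurd (flip3_mem_circleB.2 hq) hqV.2
      · change flip3 (gA s (fA s (flip3 q))) = q
        rw [gA_fA hs (flip3_mem_circleA.2 hq) hqV, flip3_flip3]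

end Pool.Agent.R279.CS
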